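import Pool.Agent.Y111.DM.Sets

/-!
# Demailly's conjecture for arbitrary sets of points with multiplicities

`w` is an arbitrary function on the `K`-rational points of the projective space of dimension `N`
with values in the natural numbers, not identically zero; its support may be infinite, for example
the set of all points of a projective variety. `I_m` is the ideal of the polynomials which vanish to
order at least `m w(p)` at every point `p`. If `w` is the indicator function of a finite set of
points with ideal `I`, then `I_m` is the symbolic power `I^(m)`.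

If `I_1` is not zero then the Waldschmidt constant `c = lim α(I_r) / r` exists, it is the infimum of
the `α(I_r) / r`, and `c ≥ (α(I_m) + N - 1) / (m + N - 1)` for all `m ≥ 1`. For a finite set of
points this is Demailly's conjecture, over an arbitrary field.

The proof: forms of bounded degree satisfy the infinitely many conditions at the points of the
support as soon as they satisfy finitely many of them; for finitely many points with multiplicities
the inequality is a theorem of the starting library `H737R3`.
-/

set_option autoImplicit false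

namespace Pool.Agent.Results.MP_794b84_ag.AllVarieties

open MvPolynomial Filter Topology Pool.Agent.H737R3 Pool.Agent.Y111.DM

/-- **Demailly's conjecture** for arbitrary sets of points with multiplicities, and for finite sets
of points, over an arbitrary field `K`, `N ≥ 1`. -/
theorem result (K : Type*) [Field K] (N : ℕ) (hN : 1 ≤ N) :
    (∀ w : PP K N → ℕ, w ≠ 0 → multIdeal w ≠ ⊥ →
      ∃ c : ℝ, Tendsto (fun r : ℕ => (alpha (multIdeal (fun p => r * w p)) : ℝ) / r) atTop (𝓝 c) ∧
        (∀ r : ℕ, 1 ≤ r → c ≤ (alpha (multIdeal (fun p => r * w p)) : ℝ) / r) ∧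
        ∀ m : ℕ, 1 ≤ m →
          ((alpha (multIdeal (fun p => m * w p)) : ℝ) + N - 1) / ((m : ℝ) + N - 1) ≤ c) ∧
    (∀ X : Finset (PP K N), X.Nonempty →
      ∃ c : ℝ, Tendsto (fun r : ℕ => (alpha (symPow X r) : ℝ) / r) atTop (𝓝 c) ∧
        ∀ m : ℕ, 1 ≤ m → ((alpha (symPow X m) : ℝ) + N - 1) / ((m : ℝ) + N - 1) ≤ c) := by
  have main : ∀ w : PP K N → ℕ, w ≠ 0 → multIdeal w ≠ ⊥ →
      ∃ c : ℝ, Tendsto (fun r : ℕ => (alpha (multIdeal (fun p => r * w p)) : ℝ) / r) atTop (𝓝 c) ∧
        (∀ r : ℕ, 1 ≤ r → c ≤ (alpha (multIdeal (fun p => r * w p)) : ℝ) / r) ∧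
        ∀ m : ℕ, 1 ≤ m →
          ((alpha (multIdeal (fun p => m * w p)) : ℝ) + N - 1) / ((m : ℝ) + N - 1) ≤ c := by
    intro w hw hne
    have h1 : multIdeal (fun p => 1 * w p) ≠ ⊥ := by simpa only [one_mul] using hne
    have hall : ∀ m, multIdeal (fun p => m * w p) ≠ ⊥ := fun m => multIdeal_ne_bot le_rfl h1 m
    obtain ⟨c, hc⟩ := exists_limit' hall
    refine ⟨c, hc, limit_le hall hc, fun m hm => ge_of_tendsto hc ?_⟩
    filter_upwards [eventually_ge_atTop 1] with r hr
    exact real_of_nat hN hm hr (demailly_all hN w hw m r hm (hall r))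
  refine ⟨main, ?_⟩
  intro X hX
  have hne : Set.indicator (X : Set (PP K N)) 1 ≠ (0 : PP K N → ℕ) := by
    obtain ⟨q, hq⟩ := hX
    intro h
    have := congrFun h q
    rw [Set.indicator_of_mem (Finset.mem_coe.2 hq)] at this
    exact one_ne_zero this
  have hfin : multIdeal (Set.indicator (X : Set (PP K N)) 1) ≠ ⊥ := by
    refine multIdeal_ne_bot_of_finite hN (X.finite_toSet.subset ?_)
    intro p hp
    by_contra hcon
    exact hp (Set.indicator_of_notMem hcon _)
  obtain ⟨c, hc, -, hm⟩ := main _ hne hfin
  refine ⟨c, ?_, ?_⟩
  · simpa only [symPow_eq] using hc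
  · simpa only [symPow_eq] using hm

end Pool.Agent.Results.MP_794b84_ag.AllVarieties
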